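import Pool.Agent.Q234.KT.Stm

/-!
# The fixed point (job KT-FX of project KT, helper275)
-/

set_option autoImplicit false

open scoped BigOperators Topology
open Finset Filter Pool.Agent.Q234.KT

namespace Pool.Agent.Q275.KT.FX

variable {V : Type} [Fintype V] [DecidableEq V]

theorem nb_nonneg {r : ℝ} (hr : 1 ≤ r) (t : Finset V → ℕ) (x : V) (c : Finset V → ℂ) :
    0 ≤ nb r t x c := by
  have : (0 : ℝ) ≤ r := by linarith
  exact Finset.sum_nonneg fun X _ => by positivity

theorem le_nb {r : ℝ} (hr : 1 ≤ r) (t : Finset V → ℕ) (x : V) (c : Finset V → ℂ) (X : Finset V)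
    (hx : x ∈ X) : ‖c X‖ ≤ nb r t x c := by
  have h0 : (0 : ℝ) ≤ r := by linarith
  have h1 : ‖c X‖ ≤ (X.card : ℝ) * ‖c X‖ * r ^ t X := by
    have h2 : (1 : ℝ) ≤ X.card := by
      exact_mod_cast Finset.card_pos.2 ⟨x, hx⟩
    have h3 : (1 : ℝ) ≤ r ^ t X := one_le_pow₀ hr
    calc ‖c X‖ = 1 * ‖c X‖ * 1 := by ring
      _ ≤ (X.card : ℝ) * ‖c X‖ * r ^ t X := by gcongr
  refine h1.trans ?_
  exact Finset.single_le_sum (f := fun X : Finset V => (X.card : ℝ) * ‖c X‖ * r ^ t X)
    (fun X _ => by positivity) (Finset.mem_filter.2 ⟨Finset.mem_univ X, hx⟩)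

theorem main : FixS := by
  intro V _ _ t r δ T hr hδ hT0 hinv hcon
  have hr0 : (0 : ℝ) ≤ r := by linarith
  set G : ℕ → Finset V → ℂ := fun k => T^[k] 0 with hG
  have hGs (k : ℕ) : G (k + 1) = T (G k) := Function.iterate_succ_apply' T k 0
  have hG0 : G 0 = 0 := rfl
  have nb0 (x : V) : nb r t x (0 : Finset V → ℂ) = 0 := by
    unfold nb
    simp
  have hGn (k : ℕ) : ∀ x, nb r t x (G k) ≤ δ := by
    induction k with
    | zero => intro x; rw [hG0, nb0]; exact hδ
    | succ k ih => intro x; rw [hGs]; exact hinv _ ih x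
  have hGd (k : ℕ) : ∀ x, nb r t x (fun X => G (k + 1) X - G k X) ≤ δ / 2 ^ k := by
    induction k with
    | zero =>
      intro x
      have e : (fun X => G (0 + 1) X - G 0 X) = G 1 := by
        funext X
        rw [hG0]
        simp
      rw [e, pow_zero, div_one]
      exact hGn 1 x
    | succ k ih =>
      intro x
      have h := hcon (G (k + 1)) (G k) (δ / 2 ^ k) (hGn _) (hGn _) ih x
      rw [← hGs, ← hGs] at h
      refine h.trans (le_of_eq ?_)
      rw [pow_succ]
      field_simp
  have hGe (k : ℕ) : G k ∅ = 0 := by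
    rcases k with _ | k
    · rfl
    · rw [hGs]; exact hT0 _
  have hGX (X : Finset V) (k : ℕ) : dist (G k X) (G (k + 1) X) ≤ (2 * δ) / 2 / 2 ^ k := by
    rw [mul_div_cancel_left₀ _ (two_ne_zero' ℝ), dist_comm, dist_eq_norm]
    rcases X.eq_empty_or_nonempty with rfl | ⟨x, hx⟩
    · rw [hGe, hGe, sub_zero, norm_zero]
      positivity
    · exact (le_nb hr t x (fun X => G (k + 1) X - G k X) X hx).trans (hGd k x)
  have hlim (X : Finset V) : ∃ a : ℂ, Tendsto (fun k => G k X) atTop (𝓝 a) :=
    cauchySeq_tendsto_of_complete (cauchySeq_of_le_geometric_two (hGX X))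
  choose g hg using hlim
  have hgd (k : ℕ) (X : Finset V) : ‖G k X - g X‖ ≤ 2 * δ / 2 ^ k := by
    rw [← dist_eq_norm]
    exact dist_le_of_le_geometric_two_of_tendsto (hGX X) (hg X) k
  have hge : g ∅ = 0 := by
    refine tendsto_nhds_unique (hg ∅) ?_
    simp only [hGe]
    exact tendsto_const_nhds
  have hgn (x : V) : nb r t x g ≤ δ := by
    refine le_of_tendsto' (f := fun k => nb r t x (G k)) (x := atTop) ?_ fun k => hGn k x
    unfold nb
    exact tendsto_finsetSum _ fun X _ => ((hg X).norm.const_mul _).mul_const _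
  -- `T g = g`
  have hTg : T g = g := by
    set C : ℝ := ∑ X : Finset V, (X.card : ℝ) * r ^ t X with hC
    have hk (k : ℕ) (x : V) : nb r t x (fun X => G k X - g X) ≤ C * (2 * δ / 2 ^ k) := by
      unfold nb
      rw [hC, Finset.sum_mul]
      refine (Finset.sum_le_sum fun X _ => ?_).trans
        (Finset.sum_le_sum_of_subset_of_nonneg (Finset.filter_subset _ _) fun X _ _ => by
          positivity)
      calc (X.card : ℝ) * ‖G k X - g X‖ * r ^ t X ≤
          (X.card : ℝ) * (2 * δ / 2 ^ k) * r ^ t X := by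
            gcongr
            exact hgd k X
        _ = (X.card : ℝ) * r ^ t X * (2 * δ / 2 ^ k) := by ring
    funext X
    rcases X.eq_empty_or_nonempty with rfl | ⟨x, hx⟩
    · rw [hT0, hge]
    · have h1 (k : ℕ) : ‖G (k + 1) X - T g X‖ ≤ C * (2 * δ / 2 ^ k) / 2 := by
        have h := hcon (G k) g _ (hGn k) hgn (hk k) x
        rw [← hGs] at h
        exact (le_nb hr t x (fun X => G (k + 1) X - T g X) X hx).trans h
      have h2 : Tendsto (fun k : ℕ => C * (2 * δ / 2 ^ k) / 2) atTop (𝓝 0) := by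
        have h3 : Tendsto (fun k : ℕ => (C * (2 * δ) / 2) * (1 / 2 : ℝ) ^ k) atTop
            (𝓝 ((C * (2 * δ) / 2) * 0)) :=
          (tendsto_pow_atTop_nhds_zero_of_lt_one (by norm_num) (by norm_num)).const_mul _
        rw [mul_zero] at h3
        refine h3.congr fun k => ?_
        rw [div_pow, one_pow]
        ring
      have h4 : Tendsto (fun k => G (k + 1) X - T g X) atTop (𝓝 0) :=
        squeeze_zero_norm h1 h2
      have h5 : Tendsto (fun k => G (k + 1) X) atTop (𝓝 (T g X)) := by
        have := h4.add_const (T g X)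
        simpa using this
      exact tendsto_nhds_unique h5 ((tendsto_add_atTop_iff_nat 1).2 (hg X))
  refine ⟨g, hge, hgn, hTg, hgd, fun g' hg'0 hg'n hg'T => ?_⟩
  have hu (k : ℕ) : ∀ x, nb r t x (fun X => g' X - g X) ≤
      (∑ y, nb r t y (fun X => g' X - g X)) / 2 ^ k := by
    induction k with
    | zero =>
      intro x
      rw [pow_zero, div_one]
      exact Finset.single_le_sum (f := fun y => nb r t y (fun X => g' X - g X))
        (fun y _ => nb_nonneg hr t y _) (Finset.mem_univ x)
    | succ k ih =>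
      intro x
      have h := hcon g' g _ hg'n hgn ih x
      rw [hg'T, hTg] at h
      refine h.trans (le_of_eq ?_)
      rw [pow_succ]
      field_simp
  funext X
  rcases X.eq_empty_or_nonempty with rfl | ⟨x, hx⟩
  · rw [hg'0, hge]
  · have h2 : Tendsto (fun k : ℕ => (∑ y, nb r t y (fun X => g' X - g X)) / 2 ^ k) atTop
        (𝓝 0) := by
      have h3 : Tendsto (fun k : ℕ => (∑ y, nb r t y (fun X => g' X - g X)) * (1 / 2 : ℝ) ^ k)
          atTop (𝓝 ((∑ y, nb r t y (fun X => g' X - g X)) * 0)) :=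
        (tendsto_pow_atTop_nhds_zero_of_lt_one (by norm_num) (by norm_num)).const_mul _
      rw [mul_zero] at h3
      refine h3.congr fun k => ?_
      rw [div_pow, one_pow]
      ring
    have h3 : ‖g' X - g X‖ ≤ 0 :=
      ge_of_tendsto' h2 fun k =>
        (le_nb hr t x (fun X => g' X - g X) X hx).trans (hu k x)
    exact sub_eq_zero.1 (norm_le_zero_iff.1 h3)

end Pool.Agent.Q275.KT.FX
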