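import Pool.Agent.Q234.KT.Stm

/-!
# The characters of `(Fin 2)^V` (job KT-WA of project KT, helper275)
-/

set_option autoImplicit false

open scoped BigOperators
open Finset Pool.Agent.Q234.KT

namespace Pool.Agent.Q275.KT.WA

theorem sg_sq (a : Fin 2) : sg a * sg a = 1 := by
  fin_cases a <;> simp [sg]

theorem sg_add (a : Fin 2) : sg (a + 1) = - sg a := by
  fin_cases a <;> simp [sg]

theorem sg_norm (a : Fin 2) : ‖sg a‖ = 1 := by
  fin_cases a <;> simp [sg]

variable {V : Type} [Fintype V] [DecidableEq V]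

theorem ch_eq (X : Finset V) (σ : V → Fin 2) :
    ch X σ = ∏ v, if v ∈ X then sg (σ v) else 1 := by
  unfold ch
  rw [Finset.prod_ite_mem, Finset.univ_inter]

/-- (5) -/
theorem ch_mul (X Y : Finset V) (σ : V → Fin 2) : ch X σ * ch Y σ = ch (symmDiff X Y) σ := by
  rw [ch_eq, ch_eq, ch_eq, ← Finset.prod_mul_distrib]
  refine Finset.prod_congr rfl fun v _ => ?_
  by_cases h1 : v ∈ X <;> by_cases h2 : v ∈ Y <;> simp [h1, h2, Finset.mem_symmDiff, sg_sq]

/-- (4) -/
theorem ch_fl (A X : Finset V) (σ : V → Fin 2) :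
    ch X (fl A σ) = (-1) ^ (X ∩ A).card * ch X σ := by
  have h : ∀ v, sg (fl A σ v) = (if v ∈ A then (-1 : ℂ) else 1) * sg (σ v) := fun v => by
    unfold fl
    by_cases hv : v ∈ A
    · rw [if_pos hv, if_pos hv, sg_add, neg_one_mul]
    · rw [if_neg hv, if_neg hv, one_mul]
  unfold ch
  rw [Finset.prod_congr rfl fun v _ => h v, Finset.prod_mul_distrib, Finset.prod_ite_mem,
    Finset.prod_const]

theorem ch_norm (X : Finset V) (σ : V → Fin 2) : ‖ch X σ‖ = 1 := by
  unfold ch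
  rw [norm_prod]
  exact Finset.prod_eq_one fun v _ => sg_norm _

theorem fl_fl (A : Finset V) (σ : V → Fin 2) : fl A (fl A σ) = σ := by
  funext v
  unfold fl
  by_cases hv : v ∈ A
  · simp only [hv, if_true]
    have : ∀ a : Fin 2, a + 1 + 1 = a := by decide
    exact this _
  · simp only [hv, if_false]

theorem orth (W : Finset V) :
    ∑ σ : V → Fin 2, ch W σ = if W = ∅ then (2 : ℂ) ^ Fintype.card V else 0 := by
  split_ifs with h
  · subst h
    simp [ch]
  · obtain ⟨v, hv⟩ := Finset.nonempty_iff_ne_empty.2 h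
    have h1 : ∑ σ : V → Fin 2, ch W σ = ∑ σ : V → Fin 2, ch W (fl {v} σ) :=
      (Equiv.sum_comp (Function.Involutive.toPerm (fl {v}) (fl_fl {v})) fun σ => ch W σ).symm
    have h2 : ∑ σ : V → Fin 2, ch W (fl {v} σ) = - ∑ σ : V → Fin 2, ch W σ := by
      rw [← Finset.sum_neg_distrib]
      refine Finset.sum_congr rfl fun σ _ => ?_
      rw [ch_fl, Finset.inter_singleton_of_mem hv, Finset.card_singleton, pow_one, neg_one_mul]
    rw [h2] at h1
    exact self_eq_neg.1 h1

theorem orth' (σ τ : V → Fin 2) :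
    ∑ X : Finset V, ch X τ * ch X σ = if τ = σ then (2 : ℂ) ^ Fintype.card V else 0 := by
  have h1 : ∑ X : Finset V, ch X τ * ch X σ = ∏ v, (1 + sg (τ v) * sg (σ v)) := by
    rw [Finset.prod_one_add, Finset.powerset_univ]
    refine Finset.sum_congr rfl fun X _ => ?_
    unfold ch
    rw [← Finset.prod_mul_distrib]
  rw [h1]
  split_ifs with h
  · subst h
    rw [Finset.prod_congr rfl fun v _ => by rw [sg_sq], Finset.prod_const, Finset.card_univ]
    norm_num
  · obtain ⟨v, hv⟩ := Function.ne_iff.1 h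
    refine Finset.prod_eq_zero (Finset.mem_univ v) ?_
    have : ∀ a b : Fin 2, a ≠ b → 1 + sg a * sg b = 0 := by
      intro a b hab
      fin_cases a <;> fin_cases b <;> simp [sg] at hab ⊢
    exact this _ _ hv

theorem two_ne : ((2 : ℂ) ^ Fintype.card V) ≠ 0 := pow_ne_zero _ two_ne_zero

/-- (1) -/
theorem inv (F : (V → Fin 2) → ℂ) (σ : V → Fin 2) :
    F σ = ∑ X : Finset V, co F X * ch X σ := by
  have h : ∑ X : Finset V, co F X * ch X σ =
      ((2 : ℂ) ^ Fintype.card V)⁻¹ * ∑ τ, F τ * ∑ X : Finset V, ch X τ * ch X σ := by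
    unfold co
    simp only [Finset.mul_sum, Finset.sum_mul]
    rw [Finset.sum_comm]
    refine Finset.sum_congr rfl fun τ _ => Finset.sum_congr rfl fun X _ => ?_
    ring
  rw [h, Finset.sum_congr rfl fun τ _ => by rw [orth' σ τ]]
  simp only [mul_ite, mul_zero, Finset.sum_ite_eq', Finset.mem_univ, if_true]
  rw [mul_comm (F σ), ← mul_assoc, inv_mul_cancel₀ two_ne, one_mul]

theorem symm_empty (X Z : Finset V) : symmDiff X Z = ∅ ↔ X = Z := symmDiff_eq_bot

/-- (2) -/
theorem co_sum (c : Finset V → ℂ) (Z : Finset V) :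
    co (fun σ => ∑ X : Finset V, c X * ch X σ) Z = c Z := by
  unfold co
  have h : ∑ σ : V → Fin 2, (∑ X : Finset V, c X * ch X σ) * ch Z σ =
      ∑ X : Finset V, c X * ∑ σ : V → Fin 2, ch (symmDiff X Z) σ := by
    simp only [Finset.mul_sum, Finset.sum_mul]
    rw [Finset.sum_comm]
    refine Finset.sum_congr rfl fun X _ => Finset.sum_congr rfl fun σ _ => ?_
    rw [mul_assoc, ch_mul]
  rw [h, Finset.sum_congr rfl fun X _ => by rw [orth]]
  simp only [symm_empty, mul_ite, mul_zero, Finset.sum_ite_eq', Finset.mem_univ, if_true]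
  rw [mul_comm (c Z), ← mul_assoc, inv_mul_cancel₀ two_ne, one_mul]

/-- (3) -/
theorem co_mul (F G : (V → Fin 2) → ℂ) (Z : Finset V) :
    co (fun σ => F σ * G σ) Z = ∑ X : Finset V, co F X * co G (symmDiff X Z) := by
  have h : ∑ σ : V → Fin 2, F σ * G σ * ch Z σ =
      ∑ X : Finset V, co F X * ∑ σ : V → Fin 2, G σ * ch (symmDiff X Z) σ := by
    simp only [Finset.mul_sum]
    rw [Finset.sum_comm]
    refine Finset.sum_congr rfl fun σ _ => ?_
    rw [inv F σ, Finset.sum_mul, Finset.sum_mul]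
    refine Finset.sum_congr rfl fun X _ => ?_
    rw [← ch_mul]
    ring
  change ((2 : ℂ) ^ Fintype.card V)⁻¹ * ∑ σ : V → Fin 2, F σ * G σ * ch Z σ = _
  rw [h, Finset.mul_sum]
  refine Finset.sum_congr rfl fun X _ => ?_
  change _ = co F X * (((2 : ℂ) ^ Fintype.card V)⁻¹ * ∑ σ : V → Fin 2, G σ * ch (symmDiff X Z) σ)
  ring

/-- (6) -/
theorem co_le (F : (V → Fin 2) → ℂ) (ω : ℝ) (hF : ∀ σ, ‖F σ‖ ≤ ω) (X : Finset V) :
    ‖co F X‖ ≤ ω := by
  unfold co
  rw [norm_mul, norm_inv, norm_pow, Complex.norm_ofNat, inv_mul_le_iff₀ (by positivity)]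
  refine (norm_sum_le _ _).trans ?_
  refine (Finset.sum_le_sum fun σ _ => ?_).trans_eq
    (b := ∑ _σ : V → Fin 2, ω) ?_
  · rw [norm_mul, ch_norm, mul_one]
    exact hF σ
  · rw [Finset.sum_const, Finset.card_univ, Fintype.card_fun, Fintype.card_fin, nsmul_eq_mul]
    push_cast
    ring

/-- (7) -/
theorem co_supp (F : (V → Fin 2) → ℂ) (B : Finset V)
    (hF : ∀ σ τ : V → Fin 2, (∀ v ∈ B, σ v = τ v) → F σ = F τ) (X : Finset V) (hX : ¬ X ⊆ B) :
    co F X = 0 := by
  obtain ⟨v, hv, hvB⟩ := Finset.not_subset.1 hX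
  have h1 : ∑ σ : V → Fin 2, F σ * ch X σ = ∑ σ : V → Fin 2, F (fl {v} σ) * ch X (fl {v} σ) :=
    (Equiv.sum_comp (Function.Involutive.toPerm (fl {v}) (fl_fl {v}))
      fun σ => F σ * ch X σ).symm
  have h2 : ∑ σ : V → Fin 2, F (fl {v} σ) * ch X (fl {v} σ) =
      - ∑ σ : V → Fin 2, F σ * ch X σ := by
    rw [← Finset.sum_neg_distrib]
    refine Finset.sum_congr rfl fun σ _ => ?_
    have h3 : F (fl {v} σ) = F σ := hF _ _ fun u hu => by
      unfold fl
      rw [if_neg]
      intro h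
      rw [Finset.mem_singleton] at h
      exact hvB (h ▸ hu)
    rw [ch_fl, Finset.inter_singleton_of_mem hv, Finset.card_singleton, pow_one, h3]
    ring
  rw [h2] at h1
  unfold co
  rw [self_eq_neg.1 h1, mul_zero]

theorem main : WalshS := fun V _ _ =>
  ⟨inv, co_sum, co_mul, ch_fl, ch_mul, fun F ω hF X => co_le F ω hF X,
    fun F B hF X hX => co_supp F B hF X hX⟩

end Pool.Agent.Q275.KT.WA
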